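import Pool.Agent.R135.Eq5c

set_option autoImplicit false
open scoped Pointwise

/-!
# A polynomial equivariant `H^*`-series that is not effective (MP_3885fd_co)

The definitions are in `Pool.Agent.R135.EquivEhrhart`. The polytope is the double bipyramid over
the cube `[0,1]^3`: its twelve vertices are the vertices of the cube `[0,1]^3 × {(0,0)}` and
`(0,0,0,1,0)`, `(1,1,1,-1,0)`, `(0,0,0,0,1)`, `(1,1,1,0,-1)`. The group `(ℤ/2)^3` acts by the affine
maps `y_i ↦ 1 - h - k - y_i` (`i = 1, 2, 3`) in the coordinates `(y_1, y_2, y_3, h, k)`. In centred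
coordinates `x_i = 2 y_i - 1 + h + k` the polytope is `max |x_i| + |h| + |k| ≤ 1` and the group
acts by sign changes of the `x_i`. The value of `H^*(t)` at a product of `j` reflections is
`(1+t)^2 (1+4t+t^2)`, `1+6t^2+t^4`, `(1+t)^2(1+t^2)`, `(1+t)^4` for `j = 0, 1, 2, 3`, and the
multiplicity of the character `(-1)^j` in the coefficient of `t^2` is
`(10 - 3 · 6 + 3 · 2 - 6) / 8 = -1`.
-/

namespace Pool.Agent.Results.MP_3885fd_co.PolynomialNotEffective

open Pool.Agent.R135.Equi Pool.Agent.R135.Eq5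

lemma HP_cases (k : ℤ) : HP k = 1 + Polynomial.C 6 * Polynomial.X + Polynomial.C 10 *
      Polynomial.X ^ 2 + Polynomial.C 6 * Polynomial.X ^ 3 + Polynomial.X ^ 4 ∧ k = 0 ∨
    HP k = 1 + Polynomial.C 6 * Polynomial.X ^ 2 + Polynomial.X ^ 4 ∧ k = 1 ∨
    HP k = 1 + Polynomial.C 2 * Polynomial.X + Polynomial.C 2 *
      Polynomial.X ^ 2 + Polynomial.C 2 * Polynomial.X ^ 3 + Polynomial.X ^ 4 ∧ k = 2 ∨
    HP k = 1 + Polynomial.C 4 * Polynomial.X + Polynomial.C 6 *
      Polynomial.X ^ 2 + Polynomial.C 4 * Polynomial.X ^ 3 + Polynomial.X ^ 4 ∧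
      ¬ k = 0 ∧ ¬ k = 1 ∧ ¬ k = 2 := by
  unfold HP
  by_cases h0 : k = 0
  · left
    rw [if_pos h0]
    refine ⟨?_, h0⟩
    simp only [map_ofNat]
    ring
  by_cases h1 : k = 1
  · right; left
    rw [if_neg h0, if_pos h1]
    exact ⟨by simp only [map_ofNat], h1⟩
  by_cases h2 : k = 2
  · right; right; left
    rw [if_neg h0, if_neg h1, if_pos h2]
    refine ⟨?_, h2⟩
    simp only [map_ofNat]
    ring
  · right; right; right
    rw [if_neg h0, if_neg h1, if_neg h2]
    refine ⟨?_, h0, h1, h2⟩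
    simp only [map_ofNat]
    ring

lemma HP_natDegree (k : ℤ) : (HP k).natDegree ≤ 4 := by
  rcases HP_cases k with ⟨h, _⟩ | ⟨h, _⟩ | ⟨h, _⟩ | ⟨h, _⟩ <;> rw [h] <;> compute_degree

/-- the coefficient of `t^2` -/
lemma HP_coeff (k : ℤ) : (HP k).coeff 2 =
    if k = 0 then 10 else if k = 1 then 6 else if k = 2 then 2 else 6 := by
  rcases HP_cases k with ⟨h, h'⟩ | ⟨h, h'⟩ | ⟨h, h'⟩ | ⟨h, h0, h1, h2⟩
  · rw [h, if_pos h']
    simp [Polynomial.coeff_one, Polynomial.coeff_X, Polynomial.coeff_X_pow]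
  · rw [h, h', if_neg (by norm_num), if_pos rfl]
    simp [Polynomial.coeff_one, Polynomial.coeff_X_pow]
  · rw [h, h', if_neg (by norm_num), if_neg (by norm_num), if_pos rfl]
    simp [Polynomial.coeff_one, Polynomial.coeff_X, Polynomial.coeff_X_pow]
  · rw [h, if_neg h0, if_neg h1, if_neg h2]
    simp [Polynomial.coeff_one, Polynomial.coeff_X, Polynomial.coeff_X_pow]

lemma isPolynomial : act.IsPolynomial P := by
  refine ⟨5, fun i hi g => ?_⟩
  unfold AffineAction.HstarCoeff
  rw [Hstar_HP, Polynomial.coeff_coe]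
  exact Polynomial.coeff_eq_zero_of_natDegree_lt (lt_of_le_of_lt (HP_natDegree _) (by omega))

/-- the sign character -/
def sgn (g : G) : ℤ := (1 - 2 * dl g 0) * (1 - 2 * dl g 1) * (1 - 2 * dl g 2)

lemma sgn_mul (g h : G) : sgn (g * h) = sgn g * sgn h := by
  have key : ∀ u v : Fin 3 → ZMod 2,
      (1 - 2 * (((u + v) 0).val : ℤ)) * (1 - 2 * (((u + v) 1).val : ℤ)) *
        (1 - 2 * (((u + v) 2).val : ℤ)) =
      ((1 - 2 * ((u 0).val : ℤ)) * (1 - 2 * ((u 1).val : ℤ)) * (1 - 2 * ((u 2).val : ℤ))) *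
      ((1 - 2 * ((v 0).val : ℤ)) * (1 - 2 * ((v 1).val : ℤ)) * (1 - 2 * ((v 2).val : ℤ))) := by
    decide +kernel
  exact key _ _

lemma sum_eq : ∑ g : G, sgn g * act.HstarCoeff P 2 g = -8 := by
  have h : ∀ g : G, act.HstarCoeff P 2 g =
      if dl g 0 + dl g 1 + dl g 2 = 0 then 10 else if dl g 0 + dl g 1 + dl g 2 = 1 then 6 else
        if dl g 0 + dl g 1 + dl g 2 = 2 then 2 else 6 := by
    intro g
    unfold AffineAction.HstarCoeff
    rw [Hstar_HP, Polynomial.coeff_coe, HP_coeff]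
  rw [Finset.sum_congr rfl fun g _ => by rw [h g]]
  decide +kernel

lemma not_character : ¬ IsCharacter (act.HstarCoeff P 2) := by
  rintro ⟨n, R, hR⟩
  obtain ⟨E, hE⟩ : ∃ E : Matrix (Fin n) (Fin n) ℂ,
      E = (8 : ℂ)⁻¹ • ∑ g : G, (sgn g : ℂ) • R g := ⟨_, rfl⟩
  have hcard : (Finset.univ : Finset G).card = 8 := by decide
  have hsg : ∀ g : G, (sgn g : ℂ) * (sgn g : ℂ) = 1 := by
    have : ∀ g : G, sgn g * sgn g = 1 := by decide +kernel
    intro g
    exact_mod_cast this g
  have h1 : ∀ h : G, ((sgn h : ℂ) • R h) * ∑ g : G, (sgn g : ℂ) • R g =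
      ∑ g : G, (sgn g : ℂ) • R g := by
    intro h
    rw [Finset.mul_sum, ← Equiv.sum_comp (Equiv.mulLeft h) fun g : G => (sgn g : ℂ) • R g]
    refine Finset.sum_congr rfl fun g _ => ?_
    rw [smul_mul_smul_comm, ← map_mul]
    simp only [Equiv.coe_mulLeft, sgn_mul]
    push_cast
    rfl
  have hidem : E * E = E := by
    have h2 : (∑ g : G, (sgn g : ℂ) • R g) * ∑ g : G, (sgn g : ℂ) • R g =
        (8 : ℂ) • ∑ g : G, (sgn g : ℂ) • R g := by
      rw [Finset.sum_mul, Finset.sum_congr rfl fun h _ => h1 h, Finset.sum_const, hcard]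
      rw [← Nat.cast_smul_eq_nsmul ℂ]
      norm_num
    rw [hE, smul_mul_smul_comm, h2, smul_smul]
    norm_num
  have htr : E.trace = -1 := by
    rw [hE, Matrix.trace_smul, Matrix.trace_sum]
    simp only [Matrix.trace_smul, hR, smul_eq_mul]
    have := sum_eq
    have h3 : (∑ g : G, (sgn g : ℂ) * (act.HstarCoeff P 2 g : ℂ)) = -8 := by
      exact_mod_cast congrArg (fun z : ℤ => (z : ℂ)) this
    rw [h3]
    norm_num
  have hproj : IsIdempotentElem (Matrix.toLin' E) := by
    unfold IsIdempotentElem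
    rw [Module.End.mul_eq_comp, ← Matrix.toLin'_mul, hidem]
  have h4 := (LinearMap.IsIdempotentElem.isProj_range _ hproj).trace
  rw [Matrix.trace_toLin'_eq, htr] at h4
  have h5 : ((Module.finrank ℂ (LinearMap.range (Matrix.toLin' E)) : ℕ) : ℂ) + 1 = 0 := by
    rw [← h4]; norm_num
  exact Nat.cast_add_one_ne_zero _ h5

/-- **Polynomiality does not imply effectiveness.** There are an elementary abelian group `G` of
order `8`, acting on the lattice `ℤ^5` by affine lattice automorphisms, and a `G`-invariant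
`5`-dimensional lattice polytope `P` whose equivariant `H^*`-series is a polynomial, but such that
`H^*_2` is not the character of a genuine representation; so `H^*(t)` is not effective. -/
theorem result :
    (∃ (G : Type) (_ : CommGroup G) (_ : Fintype G) (α : AffineAction G 5)
      (P : Set (Fin 5 → ℝ)),
      Fintype.card G = 8 ∧ (∀ g : G, g * g = 1) ∧ IsLatticePolytope P ∧ α.Invariant P ∧
      α.IsPolynomial P ∧ ¬ IsCharacter (α.HstarCoeff P 2) ∧ ¬ α.IsEffective P) ∧
    ¬ ∀ (G : Type) [Group G] [Finite G] (d : ℕ) (α : AffineAction G d) (P : Set (Fin d → ℝ)),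
      IsLatticePolytope P → α.Invariant P → α.IsPolynomial P → α.IsEffective P := by
  have h : ¬ act.IsEffective P := fun h => not_character (h 2)
  refine ⟨⟨G, inferInstance, inferInstance, act, P, by decide, by decide, isLatticePolytope_P,
    invariant_P, isPolynomial, not_character, h⟩, ?_⟩
  intro H
  exact h (H G 5 act P isLatticePolytope_P invariant_P isPolynomial)

end Pool.Agent.Results.MP_3885fd_co.PolynomialNotEffective
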